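import Pool.Agent.N440.LB.Stm

set_option autoImplicit false

/-!
Project LB (helper440), part DA (helper186): slices of a convex polygon.
-/

namespace Pool.Agent.N186.LB.DA

open Complex Set Pool.Agent.W780.PG Pool.Agent.W780.BB Pool.Agent.TH103.BL Pool.Agent.N440.LB

open scoped Real ComplexConjugate

theorem conj_dir (θ : ℝ) : conj (dir θ) * dir θ = 1 := by
  rw [← Complex.normSq_eq_conj_mul_self, Complex.normSq_eq_norm_sq]
  unfold dir
  rw [Complex.norm_exp_ofReal_mul_I]
  simp

theorem lft_line (a b d : ℂ) (u s s' : ℝ) :
    lft a b (((s : ℂ) + u * I) * d) = lft a b (((s' : ℂ) + u * I) * d) +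
      (s' - s) * ((conj d * b).im - (conj d * a).im) := by
  unfold lft
  simp only [Complex.mul_im, Complex.mul_re, Complex.sub_im, Complex.sub_re, Complex.conj_re,
    Complex.conj_im, Complex.add_im, Complex.add_re, Complex.ofReal_re, Complex.ofReal_im,
    Complex.I_re, Complex.I_im]
  ring

theorem off_line (θ u s : ℝ) : off θ (((s : ℂ) + u * I) * dir θ) = u := by
  unfold off
  have : conj (dir θ) * (((s : ℂ) + u * I) * dir θ) = (s : ℂ) + u * I := by
    calc conj (dir θ) * (((s : ℂ) + u * I) * dir θ)
        = ((s : ℂ) + u * I) * (conj (dir θ) * dir θ) := by ring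
      _ = _ := by rw [conj_dir, mul_one]
  rw [this]
  simp

theorem line_eq (θ : ℝ) (z : ℂ) (u : ℝ) (h : off θ z = u) :
    (((conj (dir θ) * z).re : ℂ) + u * I) * dir θ = z := by
  rw [← h]
  unfold off
  rw [Complex.re_add_im]
  calc conj (dir θ) * z * dir θ = z * (conj (dir θ) * dir θ) := by ring
    _ = z := by rw [conj_dir, mul_one]

theorem key_id (θ : ℝ) (a b c z : ℂ) :
    lft b c a * (off θ z - off θ b) =
      lft a b z * (off θ c - off θ b) + lft b c z * (off θ a - off θ b) := by
  unfold lft off
  simp only [Complex.mul_im, Complex.sub_im, Complex.sub_re, Complex.conj_re,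
    Complex.conj_im]
  ring

theorem cyc {n : ℕ} (Q : Fin (n + 3) → Prop) (h : ∀ l, Q l → Q (l + 1)) (k : Fin (n + 3))
    (hk : Q k) (m : Fin (n + 3)) : Q m := by
  have key : ∀ j : ℕ, Q (k + Fin.ofNat (n + 3) j) := by
    intro j
    induction j with
    | zero =>
      have e : Fin.ofNat (n + 3) 0 = 0 := rfl
      rw [e, add_zero]
      exact hk
    | succ j ih =>
      have h1 := h _ ih
      rw [add_assoc] at h1
      have e : Fin.ofNat (n + 3) (j + 1) = Fin.ofNat (n + 3) j + 1 := by
        apply Fin.ext
        simp [Fin.val_add]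
      rw [e]
      exact h1
  have h2 := key (m - k).val
  have e : Fin.ofNat (n + 3) (m - k).val = m - k := by
    apply Fin.ext
    simp
  rw [e, add_sub_cancel] at h2
  exact h2

theorem sub_one_ne {n : ℕ} (k : Fin (n + 3)) : k - 1 ≠ k ∧ k - 1 ≠ k + 1 := by
  constructor
  · intro h
    have h1 : (1 : Fin (n + 3)) = 0 := by
      have := sub_eq_self.1 h
      exact this
    exact one_ne_zero h1
  · intro h
    have h1 : (1 : Fin (n + 3)) + 1 = 0 := by
      have : k - 1 + 1 = k + 1 + 1 := by rw [h]
      rw [sub_add_cancel] at this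
      have h2 : k + 0 = k + (1 + 1) := by rw [add_zero, ← add_assoc]; exact this
      exact (add_left_cancel h2).symm
    have h2 := congrArg Fin.val h1
    rw [Fin.val_add] at h2
    have h3 : ((1 : Fin (n + 3)) : ℕ) = 1 := rfl
    rw [h3] at h2
    have h4 : (1 + 1) % (n + 3) = 2 := Nat.mod_eq_of_lt (by omega)
    rw [h4] at h2
    exact absurd h2 (by simp)

theorem t_DA : S_DA := by
  intro hB n p hp θ u hu
  obtain ⟨-, -, -, -, -, -, -, -, -, -, -, -, hside, -⟩ := hB n p hp
  set g : Fin (n + 3) → ℝ → ℝ := fun l s => lft (p l) (p (l + 1)) (((s : ℂ) + u * I) * dir θ)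
    with hg
  have hgd : ∀ l s s', g l s = g l s' + (s' - s) * (off θ (p (l + 1)) - off θ (p l)) :=
    fun l s s' => lft_line _ _ _ _ _ _
  set σ : Fin (n + 3) → ℝ := fun l => (conj (dir θ) * pt p l (par p θ l u)).re with hσ
  have hslice : ∀ s : ℝ, ((s : ℂ) + u * I) * dir θ ∈ reg p ↔ ∀ l, 0 < g l s := fun s => Iff.rfl
  -- crossing sides
  have hcross : ∀ l, ((off θ (p l) < u ∧ u < off θ (p (l + 1))) ∨
      (off θ (p (l + 1)) < u ∧ u < off θ (p l))) →
      ((σ l : ℂ) + u * I) * dir θ = pt p l (par p θ l u) ∧ g l (σ l) = 0 ∧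
        ∀ k, k ≠ l → 0 < g k (σ l) := by
    intro l hl
    have hD : off θ (p (l + 1)) - off θ (p l) ≠ 0 := by
      rcases hl with ⟨h1, h2⟩ | ⟨h1, h2⟩
      · have : 0 < off θ (p (l + 1)) - off θ (p l) := by linarith
        exact this.ne'
      · have : off θ (p (l + 1)) - off θ (p l) < 0 := by linarith
        exact this.ne
    have hpar : par p θ l u ∈ Ioo (0 : ℝ) 1 := by
      unfold par
      rcases hl with ⟨h1, h2⟩ | ⟨h1, h2⟩
      · constructor
        · exact div_pos (by linarith) (by linarith)
        · rw [div_lt_one (by linarith)]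
          linarith
      · constructor
        · exact div_pos_of_neg_of_neg (by linarith) (by linarith)
        · rw [div_lt_one_of_neg (by linarith)]
          linarith
    have hpt : pt p l (par p θ l u) ∈ side p l := by
      unfold side
      rw [openSegment_eq_image']
      exact ⟨par p θ l u, hpar, rfl⟩
    have hoff : off θ (pt p l (par p θ l u)) = u := by
      have e1 : off θ (pt p l (par p θ l u)) =
          off θ (p l) + par p θ l u * (off θ (p (l + 1)) - off θ (p l)) := by
        unfold off pt
        simp only [Complex.mul_im, Complex.add_im, Complex.add_re, Complex.sub_im, Complex.sub_re,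
          Complex.conj_re, Complex.conj_im, Complex.real_smul, Complex.mul_re, Complex.ofReal_re,
          Complex.ofReal_im]
        ring
      rw [e1]
      unfold par
      rw [div_mul_cancel₀ _ hD]
      ring
    have heq := line_eq θ _ u hoff
    obtain ⟨-, s2, s3⟩ := hside l _ hpt
    refine ⟨heq, ?_, fun k hk => ?_⟩
    · show lft (p l) (p (l + 1)) (((σ l : ℂ) + u * I) * dir θ) = 0
      rw [show ((σ l : ℂ) + u * I) * dir θ = pt p l (par p θ l u) from heq]
      exact s2
    · show 0 < lft (p k) (p (k + 1)) (((σ l : ℂ) + u * I) * dir θ)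
      rw [show ((σ l : ℂ) + u * I) * dir θ = pt p l (par p θ l u) from heq]
      exact s3 k hk
  -- comparison of crossing sides
  have hup : ∀ i l, i ≠ l → (off θ (p i) < u ∧ u < off θ (p (i + 1))) →
      ((off θ (p l) < u ∧ u < off θ (p (l + 1))) ∨ (off θ (p (l + 1)) < u ∧ u < off θ (p l))) →
      σ l < σ i := by
    intro i l hne hi hl
    have h1 := (hcross l hl).2.2 i hne
    have h2 := (hcross i (Or.inl hi)).2.1
    have h3 := hgd i (σ l) (σ i)
    rw [h2] at h3
    have h4 : 0 < off θ (p (i + 1)) - off θ (p i) := by linarith [hi.1, hi.2]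
    by_contra hcon
    have h5 : (σ i - σ l) * (off θ (p (i + 1)) - off θ (p i)) ≤ 0 :=
      mul_nonpos_of_nonpos_of_nonneg (by linarith) h4.le
    linarith
  have hdn : ∀ j l, j ≠ l → (off θ (p (j + 1)) < u ∧ u < off θ (p j)) →
      ((off θ (p l) < u ∧ u < off θ (p (l + 1))) ∨ (off θ (p (l + 1)) < u ∧ u < off θ (p l))) →
      σ j < σ l := by
    intro j l hne hj hl
    have h1 := (hcross l hl).2.2 j hne
    have h2 := (hcross j (Or.inr hj)).2.1
    have h3 := hgd j (σ l) (σ j)
    rw [h2] at h3
    have h4 : off θ (p (j + 1)) - off θ (p j) < 0 := by linarith [hj.1, hj.2]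
    by_contra hcon
    have h5 : (σ j - σ l) * (off θ (p (j + 1)) - off θ (p j)) ≤ 0 :=
      mul_nonpos_of_nonneg_of_nonpos (by linarith) h4.le
    linarith
  by_cases hall : (∀ l, off θ (p l) < u) ∨ ∀ l, u < off θ (p l)
  · left
    constructor
    · rw [Set.eq_empty_iff_forall_notMem]
      intro s hs
      have hs' : ∀ l, 0 < lft (p l) (p (l + 1)) (((s : ℂ) + u * I) * dir θ) := hs
      rcases hall with hall | hall
      · obtain ⟨k, hk⟩ := Finite.exists_max (fun l => off θ (p l))
        have hid := key_id θ (p (k - 1)) (p k) (p (k + 1)) (((s : ℂ) + u * I) * dir θ)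
        rw [off_line] at hid
        have c1 := hp.pos k (k - 1) (sub_one_ne k).1 (sub_one_ne k).2
        have c2 := hs' (k - 1)
        rw [sub_add_cancel] at c2
        have c3 := hs' k
        have d1 : 0 < u - off θ (p k) := by linarith [hall k]
        have d2 : off θ (p (k + 1)) - off θ (p k) ≤ 0 := by linarith [hk (k + 1)]
        have d3 : off θ (p (k - 1)) - off θ (p k) ≤ 0 := by linarith [hk (k - 1)]
        have f1 := mul_pos c1 d1
        have f2 := mul_nonpos_of_nonneg_of_nonpos c2.le d2
        have f3 := mul_nonpos_of_nonneg_of_nonpos c3.le d3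
        linarith
      · obtain ⟨k, hk⟩ := Finite.exists_min (fun l => off θ (p l))
        have hid := key_id θ (p (k - 1)) (p k) (p (k + 1)) (((s : ℂ) + u * I) * dir θ)
        rw [off_line] at hid
        have c1 := hp.pos k (k - 1) (sub_one_ne k).1 (sub_one_ne k).2
        have c2 := hs' (k - 1)
        rw [sub_add_cancel] at c2
        have c3 := hs' k
        have d1 : u - off θ (p k) < 0 := by linarith [hall k]
        have d2 : 0 ≤ off θ (p (k + 1)) - off θ (p k) := by linarith [hk (k + 1)]
        have d3 : 0 ≤ off θ (p (k - 1)) - off θ (p k) := by linarith [hk (k - 1)]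
        have f1 := mul_neg_of_pos_of_neg c1 d1
        have f2 := mul_nonneg c2.le d2
        have f3 := mul_nonneg c3.le d3
        linarith
    · intro l
      rcases hall with hall | hall
      · exact Or.inl ⟨hall l, hall _⟩
      · exact Or.inr ⟨hall l, hall _⟩
  · right
    rw [not_or, not_forall, not_forall] at hall
    obtain ⟨⟨k1, hk1⟩, ⟨k2, hk2⟩⟩ := hall
    have hk1' : u < off θ (p k1) := lt_of_le_of_ne (not_lt.1 hk1) (hu k1).symm
    have hk2' : off θ (p k2) < u := lt_of_le_of_ne (not_lt.1 hk2) (hu k2)
    obtain ⟨i, hi⟩ : ∃ i, off θ (p i) < u ∧ u < off θ (p (i + 1)) := by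
      by_contra hcon
      push Not at hcon
      have := cyc (fun l => off θ (p l) < u) (fun l hl =>
        lt_of_le_of_ne (hcon l hl) (hu _)) k2 hk2' k1
      exact hk1 this
    obtain ⟨j, hj⟩ : ∃ j, off θ (p (j + 1)) < u ∧ u < off θ (p j) := by
      by_contra hcon
      push Not at hcon
      have := cyc (fun l => u < off θ (p l)) (fun l hl => by
        by_contra h
        have h' : off θ (p (l + 1)) < u := lt_of_le_of_ne (not_lt.1 h) (hu _)
        have := hcon l h'
        linarith) k1 hk1' k2
      exact hk2 this
    have hij : i ≠ j := by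
      rintro rfl
      linarith [hi.1, hj.2]
    have hci := hcross i (Or.inl hi)
    have hcj := hcross j (Or.inr hj)
    have hlt : σ j < σ i := hup i j hij hi (Or.inr hj)
    refine ⟨i, j, σ j, σ i, hij, hi.1, hi.2, hj.1, hj.2, ?_, hlt, ?_, hcj.1, hci.1⟩
    · intro l hli hlj
      by_contra hcon
      rw [not_or, not_and_or, not_and_or] at hcon
      obtain ⟨ha, hb⟩ := hcon
      have hla : off θ (p l) < u ∨ u < off θ (p l) := lt_or_gt_of_ne (hu l)
      have hlb : off θ (p (l + 1)) < u ∨ u < off θ (p (l + 1)) := lt_or_gt_of_ne (hu _)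
      rcases hla with hla | hla
      · have hlb' : u < off θ (p (l + 1)) := by
          rcases hlb with h | h
          · exfalso
            rcases ha with ha | ha
            · exact ha hla
            · exact ha h
          · exact h
        have e1 := hup i l hli.symm hi (Or.inl ⟨hla, hlb'⟩)
        have e2 := hup l i hli ⟨hla, hlb'⟩ (Or.inl hi)
        linarith
      · have hlb' : off θ (p (l + 1)) < u := by
          rcases hlb with h | h
          · exact h
          · exfalso
            rcases hb with hb | hb
            · exact hb hla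
            · exact hb h
        have e1 := hdn j l hlj.symm hj (Or.inr ⟨hlb', hla⟩)
        have e2 := hdn l j hlj ⟨hlb', hla⟩ (Or.inr hj)
        linarith
    · ext s
      rw [Set.mem_ofPred_eq, hslice]
      constructor
      · intro hs
        have d1 : 0 < off θ (p (i + 1)) - off θ (p i) := by linarith [hi.1, hi.2]
        have d2 : off θ (p (j + 1)) - off θ (p j) < 0 := by linarith [hj.1, hj.2]
        constructor
        · have h1 := hs j
          rw [hgd j s (σ j), hcj.2.1, zero_add] at h1
          by_contra hcon
          have h2 : (σ j - s) * (off θ (p (j + 1)) - off θ (p j)) ≤ 0 :=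
            mul_nonpos_of_nonneg_of_nonpos (by linarith [not_lt.1 hcon]) d2.le
          linarith
        · have h1 := hs i
          rw [hgd i s (σ i), hci.2.1, zero_add] at h1
          by_contra hcon
          have h2 : (σ i - s) * (off θ (p (i + 1)) - off θ (p i)) ≤ 0 :=
            mul_nonpos_of_nonpos_of_nonneg (by linarith [not_lt.1 hcon]) d1.le
          linarith
      · rintro ⟨hs1, hs2⟩ l
        -- `g l` is affine, nonnegative at both ends, positive at one of them
        have a1 : 0 ≤ g l (σ i) := by
          by_cases h : l = i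
          · rw [h, hci.2.1]
          · exact (hci.2.2 l h).le
        have a2 : 0 ≤ g l (σ j) := by
          by_cases h : l = j
          · rw [h, hcj.2.1]
          · exact (hcj.2.2 l h).le
        have a3 : 0 < g l (σ i) ∨ 0 < g l (σ j) := by
          by_cases h : l = i
          · right
            exact hcj.2.2 l (by rw [h]; exact hij)
          · left; exact hci.2.2 l h
        have e1 := hgd l s (σ i)
        have e2 := hgd l s (σ j)
        have e3 : (σ i - σ j) * g l s = (s - σ j) * g l (σ i) + (σ i - s) * g l (σ j) := by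
          have e4 : (s - σ j) * g l s = (s - σ j) * g l (σ i) +
            (s - σ j) * ((σ i - s) * (off θ (p (l + 1)) - off θ (p l))) := by rw [e1]; ring
          have e5 : (σ i - s) * g l s = (σ i - s) * g l (σ j) +
            (σ i - s) * ((σ j - s) * (off θ (p (l + 1)) - off θ (p l))) := by rw [e2]; ring
          linarith
        have b1 : 0 < s - σ j := by linarith
        have b2 : 0 < σ i - s := by linarith
        have e6 : 0 < (σ i - σ j) * g l s := by
          rw [e3]
          rcases a3 with h | h
          · have := mul_pos b1 h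
            have := mul_nonneg b2.le a2
            linarith
          · have := mul_pos b2 h
            have := mul_nonneg b1.le a1
            linarith
        exact (pos_iff_pos_of_mul_pos e6).1 (by linarith)

end Pool.Agent.N186.LB.DA
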